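import Mathlib.Combinatorics.SimpleGraph.Acyclic
import Mathlib.Combinatorics.SimpleGraph.DegreeSum
import Mathlib.Tactic

/-!
# Maximum degree of trees with a neighbor-locating `k`-colouring

We prove that a vertex of a finite tree with a neighbor-locating colouring with `k` colours has
degree at most `(k - 1) ^ 2`.
-/

namespace Pool.Agent.Results.MP_16ddc9_co.TreeMaxDegree

open SimpleGraph Finset

/-- The set of colours appearing in the open neighbourhood of `v`. -/
def colourNbhd {V : Type} (G : SimpleGraph V) {k : ℕ} (c : V → Fin k) (v : V) : Set (Fin k) :=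
  {i | ∃ w, G.Adj v w ∧ c w = i}

/-- `c` is a neighbor-locating proper colouring of `G` with exactly `k` (nonempty) colour classes:
two distinct vertices of the same colour have different colour-neighbourhoods. -/
def IsNeighborLocating {V : Type} (G : SimpleGraph V) (k : ℕ) (c : V → Fin k) : Prop :=
  Function.Surjective c ∧ (∀ u v, G.Adj u v → c u ≠ c v) ∧
    ∀ u v, u ≠ v → c u = c v → colourNbhd G c u ≠ colourNbhd G c v

/-- The neighbor-locating chromatic number. -/
noncomputable def chiNL {V : Type} (G : SimpleGraph V) : ℕ :=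
  sInf {k | ∃ c : V → Fin k, IsNeighborLocating G k c}

section main

variable {V : Type} [Fintype V] [DecidableEq V] (T : SimpleGraph V) [DecidableRel T.Adj]
variable {k : ℕ} (c : V → Fin k)

/-- colours around a vertex, as a finset. -/
def S (w : V) : Finset (Fin k) := (T.neighborFinset w).image c

theorem mem_S {w : V} {i : Fin k} : i ∈ S T c w ↔ ∃ u, T.Adj w u ∧ c u = i := by
  simp [S]

theorem S_coe (w : V) : (S T c w : Set (Fin k)) = colourNbhd T c w := by
  ext i
  rw [Finset.mem_coe, mem_S]
  rfl

theorem card_S_le (w : V) : (S T c w).card ≤ T.degree w := by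
  rw [← T.card_neighborFinset_eq_degree]
  exact Finset.card_image_le

theorem deg_bound (hT : T.IsTree) (hp : ∀ u v, T.Adj u v → c u ≠ c v)
    (hs : ∀ u v, u ≠ v → c u = c v → colourNbhd T c u ≠ colourNbhd T c v) (v : V) :
    T.degree v ≤ (k - 1) ^ 2 := by
  classical
  set z := c v with hz
  have hk : 1 ≤ k := by
    have := z.2
    omega
  -- labels are injective
  have hinj : ∀ u w, c u = c w → S T c u = S T c w → u = w := by
    intro u w h1 h2
    by_contra hne
    refine hs u w hne h1 ?_
    rw [← S_coe, ← S_coe, h2]
  -- every vertex other than `v` has a neighbour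
  have hnb : ∀ w, w ≠ v → ∃ u, T.Adj w u := by
    intro w hw
    obtain ⟨p⟩ := hT.1.preconnected w v
    cases p with
    | nil => exact absurd rfl hw
    | cons h _ => exact ⟨_, h⟩
  have hSne : ∀ w, w ≠ v → 1 ≤ (S T c w).card := by
    intro w hw
    obtain ⟨u, hu⟩ := hnb w hw
    exact Finset.card_pos.mpr ⟨c u, (mem_S T c).mpr ⟨u, hu, rfl⟩⟩
  let W : Finset V := Finset.univ.erase v
  have hWmem : ∀ w, w ∈ W ↔ w ≠ v := by intro w; simp [W]
  let M : Finset V := W.filter (fun w => (S T c w).card = 1)
  let q : V → ℕ := fun w => (S T c w).card - 2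
  let e : V → ℕ := fun w => T.degree w - (S T c w).card
  let J : Finset (Fin k) := Finset.univ.erase z
  have hJ : J.card = k - 1 := by
    simp [J, Finset.card_erase_of_mem]
  let K : Finset (Fin k) := J.filter (fun j => ∃ w, w ≠ v ∧ c w = z ∧ S T c w = {j})
  -- equation (1)
  have hsumdeg : ∑ w ∈ W, T.degree w + T.degree v = 2 * W.card := by
    have h1 := T.sum_degrees_eq_twice_card_edges
    have h2 := hT.card_edgeFinset
    have h3 : ∑ w ∈ W, T.degree w + T.degree v = ∑ w, T.degree w :=
      Finset.sum_erase_add _ _ (Finset.mem_univ v)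
    have h4 : W.card + 1 = Fintype.card V := by
      simp only [W]
      rw [Finset.card_erase_of_mem (Finset.mem_univ v), Finset.card_univ]
      have : 0 < Fintype.card V := Fintype.card_pos_iff.mpr ⟨v⟩
      omega
    omega
  have hM : M.card = ∑ w ∈ W, (if (S T c w).card = 1 then 1 else 0) := by
    simp only [M]
    rw [Finset.card_filter]
  have hsum2 : ∑ w ∈ W, T.degree w + M.card = 2 * W.card + ∑ w ∈ W, q w + ∑ w ∈ W, e w := by
    rw [hM, ← Finset.sum_add_distrib]
    have : 2 * W.card = ∑ _w ∈ W, 2 := by
      rw [Finset.sum_const, smul_eq_mul, mul_comm]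
    rw [this, ← Finset.sum_add_distrib, ← Finset.sum_add_distrib]
    refine Finset.sum_congr rfl ?_
    intro w hw
    have h1 := hSne w ((hWmem w).mp hw)
    have h2 := card_S_le T c w
    simp only [q, e]
    split_ifs with h
    · omega
    · omega
  have eq1 : M.card = T.degree v + ∑ w ∈ W, q w + ∑ w ∈ W, e w := by omega
  -- inequality (2)
  have ineq2 : M.card + (J \ K).card ≤ k * (k - 1) := by
    let L1 : Finset (Fin k × Finset (Fin k)) := M.image (fun w => (c w, S T c w))
    let L2 : Finset (Fin k × Finset (Fin k)) := (J \ K).image (fun j => (z, ({j} : Finset (Fin k))))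
    have h1 : L1.card = M.card := by
      apply Finset.card_image_of_injOn
      intro a _ b _ h
      simp only [Prod.mk.injEq] at h
      exact hinj a b h.1 h.2
    have h2 : L2.card = (J \ K).card := by
      apply Finset.card_image_of_injective
      intro a b h
      simpa using h
    have hdisj : Disjoint L1 L2 := by
      rw [Finset.disjoint_left]
      rintro x hx1 hx2
      obtain ⟨w, hw, rfl⟩ := Finset.mem_image.mp hx1
      obtain ⟨j, hj, hjw⟩ := Finset.mem_image.mp hx2
      simp only [Prod.mk.injEq] at hjw
      rw [Finset.mem_sdiff] at hj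
      apply hj.2
      simp only [K, Finset.mem_filter]
      refine ⟨hj.1, w, ?_, hjw.1.symm, hjw.2.symm⟩
      exact (hWmem w).mp (Finset.mem_filter.mp hw).1
    have hsub : L1 ∪ L2 ⊆ (Finset.univ.offDiag : Finset (Fin k × Fin k)).image
        (fun x => (x.1, ({x.2} : Finset (Fin k)))) := by
      intro x hx
      rw [Finset.mem_image]
      rcases Finset.mem_union.mp hx with hx | hx
      · obtain ⟨w, hw, rfl⟩ := Finset.mem_image.mp hx
        obtain ⟨j, hj⟩ := Finset.card_eq_one.mp (Finset.mem_filter.mp hw).2
        refine ⟨(c w, j), ?_, by simp [hj]⟩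
        rw [Finset.mem_offDiag]
        refine ⟨Finset.mem_univ _, Finset.mem_univ _, ?_⟩
        have hj' : j ∈ S T c w := by rw [hj]; exact Finset.mem_singleton_self j
        obtain ⟨u, hu, hcu⟩ := (mem_S T c).mp hj'
        intro h
        exact hp w u hu (h.trans hcu.symm)
      · obtain ⟨j, hj, rfl⟩ := Finset.mem_image.mp hx
        refine ⟨(z, j), ?_, rfl⟩
        rw [Finset.mem_offDiag]
        refine ⟨Finset.mem_univ _, Finset.mem_univ _, ?_⟩
        have := (Finset.mem_sdiff.mp hj).1
        simp only [J, Finset.mem_erase] at this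
        exact fun h => this.1 h.symm
    calc M.card + (J \ K).card = (L1 ∪ L2).card := by
          rw [Finset.card_union_of_disjoint hdisj, h1, h2]
      _ ≤ _ := Finset.card_le_card hsub
      _ ≤ (Finset.univ.offDiag : Finset (Fin k × Fin k)).card := Finset.card_image_le
      _ = k * (k - 1) := by
          rw [Finset.offDiag_card, Finset.card_univ, Fintype.card_fin, Nat.mul_sub, mul_one]
  -- the chosen vertices
  have hex : ∀ j, ∃ p : V, j ∈ K → (c p = j ∧ ∃ w, w ≠ v ∧ c w = z ∧ T.Adj p w) := by
    intro j
    by_cases hj : j ∈ K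
    · obtain ⟨-, w, hwv, hwz, hwS⟩ := Finset.mem_filter.mp hj
      have hj' : j ∈ S T c w := by rw [hwS]; exact Finset.mem_singleton_self j
      obtain ⟨u, hu, hcu⟩ := (mem_S T c).mp hj'
      exact ⟨u, fun _ => ⟨hcu, w, hwv, hwz, hu.symm⟩⟩
    · exact ⟨v, fun h => absurd h hj⟩
  choose p hpK using hex
  have hKJ : ∀ j ∈ K, j ≠ z := by
    intro j hj
    have := (Finset.mem_filter.mp hj).1
    simp only [J, Finset.mem_erase] at this
    exact this.1
  have hpW : ∀ j ∈ K, p j ∈ W := by
    intro j hj
    rw [hWmem]
    intro h
    have := (hpK j hj).1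
    rw [h] at this
    exact hKJ j hj this.symm
  have hpinj : ∀ i ∈ K, ∀ j ∈ K, p i = p j → i = j := by
    intro i hi j hj h
    rw [← (hpK i hi).1, ← (hpK j hj).1, h]
  let K3 := K.filter (fun j => T.Adj v (p j))
  let K4 := K.filter (fun j => ¬ T.Adj v (p j) ∧ (S T c (p j)).card ≤ 2)
  let K5 := K.filter (fun j => ¬ T.Adj v (p j) ∧ ¬ (S T c (p j)).card ≤ 2)
  have hKsplit : K.card = K3.card + K4.card + K5.card := by
    have h1 : K.card = (K.filter (fun j => T.Adj v (p j))).card +
        (K.filter (fun j => ¬ T.Adj v (p j))).card := by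
      rw [Finset.card_filter_add_card_filter_not]
    have h2 : (K.filter (fun j => ¬ T.Adj v (p j))).card = K4.card + K5.card := by
      have e4 : (K.filter (fun j => ¬ T.Adj v (p j))).filter
          (fun j => (S T c (p j)).card ≤ 2) = K4 := Finset.filter_filter _ _ _
      have e5 : (K.filter (fun j => ¬ T.Adj v (p j))).filter
          (fun j => ¬ (S T c (p j)).card ≤ 2) = K5 := Finset.filter_filter _ _ _
      rw [← Finset.card_filter_add_card_filter_not (s := K.filter (fun j => ¬ T.Adj v (p j)))
        (fun j => (S T c (p j)).card ≤ 2), e4, e5]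
    rw [h1, h2, add_assoc]
  have hJK : (J \ K).card + K.card = k - 1 := by
    rw [← hJ]
    exact Finset.card_sdiff_add_card_eq_card (Finset.filter_subset _ _)
  -- inequality (5a)
  have ineq5a : K3.card ≤ ∑ w ∈ W, e w := by
    calc K3.card = (K3.image p).card := by
          rw [Finset.card_image_of_injOn]
          intro i hi j hj h
          exact hpinj i (Finset.mem_filter.mp hi).1 j (Finset.mem_filter.mp hj).1 h
      _ = ∑ _w ∈ K3.image p, 1 := by simp
      _ ≤ ∑ w ∈ K3.image p, e w := by
          apply Finset.sum_le_sum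
          intro w hw
          obtain ⟨j, hj, rfl⟩ := Finset.mem_image.mp hw
          obtain ⟨hjK, hadj⟩ := Finset.mem_filter.mp hj
          obtain ⟨-, u, huv, huz, hadj2⟩ := hpK j hjK
          have hlt : (S T c (p j)).card < T.degree (p j) := by
            rw [← T.card_neighborFinset_eq_degree]
            refine lt_of_le_of_ne Finset.card_image_le ?_
            intro heq
            have hio := Finset.card_image_iff.mp heq
            apply huv
            refine hio ?_ ?_ (huz.trans hz)
            · simpa using hadj2
            · simpa using hadj.symm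
          simp only [e]
          omega
      _ ≤ ∑ w ∈ W, e w := by
          apply Finset.sum_le_sum_of_subset
          intro w hw
          obtain ⟨j, hj, rfl⟩ := Finset.mem_image.mp hw
          exact hpW j (Finset.mem_filter.mp hj).1
  let B : Finset V := (T.neighborFinset v).filter (fun w => ¬ (S T c w).card ≤ 2)
  let A : Finset V := (T.neighborFinset v).filter (fun w => (S T c w).card ≤ 2)
  have eq3 : T.degree v = A.card + B.card := by
    rw [← T.card_neighborFinset_eq_degree]
    exact (Finset.card_filter_add_card_filter_not _).symm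
  have ineq5b : B.card + K5.card ≤ ∑ w ∈ W, q w := by
    have hdisj : Disjoint B (K5.image p) := by
      rw [Finset.disjoint_left]
      intro w hw hw2
      obtain ⟨j, hj, rfl⟩ := Finset.mem_image.mp hw2
      have h1 := (Finset.mem_filter.mp hw).1
      rw [SimpleGraph.mem_neighborFinset] at h1
      exact (Finset.mem_filter.mp hj).2.1 h1
    calc B.card + K5.card = B.card + (K5.image p).card := by
          rw [Finset.card_image_of_injOn (s := K5)]
          intro i hi j hj h
          exact hpinj i (Finset.mem_filter.mp hi).1 j (Finset.mem_filter.mp hj).1 h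
      _ = (B ∪ K5.image p).card := (Finset.card_union_of_disjoint hdisj).symm
      _ = ∑ _w ∈ B ∪ K5.image p, 1 := by simp
      _ ≤ ∑ w ∈ B ∪ K5.image p, q w := by
          apply Finset.sum_le_sum
          intro w hw
          simp only [q]
          rcases Finset.mem_union.mp hw with hw | hw
          · have := (Finset.mem_filter.mp hw).2
            omega
          · obtain ⟨j, hj, rfl⟩ := Finset.mem_image.mp hw
            have := (Finset.mem_filter.mp hj).2.2
            omega
      _ ≤ ∑ w ∈ W, q w := by
          apply Finset.sum_le_sum_of_subset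
          intro w hw
          rcases Finset.mem_union.mp hw with hw | hw
          · have := (Finset.mem_filter.mp hw).1
            rw [SimpleGraph.mem_neighborFinset] at this
            rw [hWmem]
            exact this.ne'
          · obtain ⟨j, hj, rfl⟩ := Finset.mem_image.mp hw
            exact hpW j (Finset.mem_filter.mp hj).1
  -- inequality (4)
  have ineq4 : A.card + K4.card ≤ (k - 1) ^ 2 := by
    let L1 : Finset (Fin k × Finset (Fin k)) := A.image (fun w => (c w, S T c w))
    let L2 : Finset (Fin k × Finset (Fin k)) := (K4.image p).image (fun w => (c w, S T c w))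
    have hli : ∀ s : Finset V, (s.image (fun w => (c w, S T c w))).card = s.card := by
      intro s
      apply Finset.card_image_of_injOn
      intro a _ b _ h
      simp only [Prod.mk.injEq] at h
      exact hinj a b h.1 h.2
    have h2 : (K4.image p).card = K4.card := by
      rw [Finset.card_image_of_injOn]
      intro i hi j hj h
      exact hpinj i (Finset.mem_filter.mp hi).1 j (Finset.mem_filter.mp hj).1 h
    have hdisj : Disjoint A (K4.image p) := by
      rw [Finset.disjoint_left]
      intro w hw hw2
      obtain ⟨j, hj, rfl⟩ := Finset.mem_image.mp hw2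
      have h1 := (Finset.mem_filter.mp hw).1
      rw [SimpleGraph.mem_neighborFinset] at h1
      exact (Finset.mem_filter.mp hj).2.1 h1
    have hsub : (A ∪ K4.image p).image (fun w => (c w, S T c w)) ⊆
        (J ×ˢ J).image (fun x => (x.1, if x.2 = x.1 then ({z} : Finset (Fin k)) else {z, x.2})) := by
      intro x hx
      obtain ⟨w, hw, rfl⟩ := Finset.mem_image.mp hx
      have hw' : c w ≠ z ∧ z ∈ S T c w ∧ (S T c w).card ≤ 2 := by
        rcases Finset.mem_union.mp hw with hw | hw
        · obtain ⟨h1, h2⟩ := Finset.mem_filter.mp hw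
          rw [SimpleGraph.mem_neighborFinset] at h1
          exact ⟨(hp v w h1).symm, (mem_S T c).mpr ⟨v, h1.symm, rfl⟩, h2⟩
        · obtain ⟨j, hj, rfl⟩ := Finset.mem_image.mp hw
          obtain ⟨hjK, -, h2⟩ := Finset.mem_filter.mp hj
          obtain ⟨h3, u, -, huz, hadj⟩ := hpK j hjK
          exact ⟨by rw [h3]; exact hKJ j hjK, (mem_S T c).mpr ⟨u, hadj, huz⟩, h2⟩
      obtain ⟨h1, h2, h3⟩ := hw'
      have hcS : c w ∉ S T c w := by
        intro h
        obtain ⟨u, hu, hcu⟩ := (mem_S T c).mp h
        exact hp w u hu hcu.symm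
      rw [Finset.mem_image]
      by_cases h4 : (S T c w).card = 1
      · refine ⟨(c w, c w), ?_, ?_⟩
        · simp only [J, Finset.mem_product, Finset.mem_erase, Finset.mem_univ, and_true]
          exact ⟨h1, h1⟩
        · obtain ⟨j, hj⟩ := Finset.card_eq_one.mp h4
          rw [hj, Finset.mem_singleton] at h2
          simp [hj, h2]
      · have h5 : (S T c w).card = 2 := by
          have : 0 < (S T c w).card := Finset.card_pos.mpr ⟨z, h2⟩
          omega
        have h6 : ((S T c w).erase z).card = 1 := by
          rw [Finset.card_erase_of_mem h2, h5]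
        obtain ⟨j, hj⟩ := Finset.card_eq_one.mp h6
        have hjm : j ∈ (S T c w).erase z := by rw [hj]; exact Finset.mem_singleton_self j
        rw [Finset.mem_erase] at hjm
        have hjc : j ≠ c w := by
          rintro rfl
          exact hcS hjm.2
        refine ⟨(c w, j), ?_, ?_⟩
        · simp only [J, Finset.mem_product, Finset.mem_erase, Finset.mem_univ, and_true]
          exact ⟨h1, hjm.1⟩
        · simp only [hjc, if_false, Prod.mk.injEq, true_and]
          rw [← Finset.insert_erase h2, hj]
    calc A.card + K4.card = (A ∪ K4.image p).card := by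
          rw [Finset.card_union_of_disjoint hdisj, h2]
      _ = ((A ∪ K4.image p).image (fun w => (c w, S T c w))).card := (hli _).symm
      _ ≤ _ := Finset.card_le_card hsub
      _ ≤ (J ×ˢ J).card := Finset.card_image_le
      _ = (k - 1) ^ 2 := by rw [Finset.card_product, hJ, sq]
  have hkk : k * (k - 1) = (k - 1) ^ 2 + (k - 1) := by
    obtain ⟨m, rfl⟩ : ∃ m, k = m + 1 := ⟨k - 1, by omega⟩
    simp only [Nat.add_sub_cancel]
    ring
  omega

end main

/-- Every finite tree `T` satisfies `Δ(T) ≤ (χ_NL(T) - 1) ^ 2`. -/
theorem result : ∀ (V : Type) [Fintype V] (T : SimpleGraph V) [DecidableRel T.Adj], T.IsTree →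
    ∀ k : ℕ, chiNL T = k → T.maxDegree ≤ (k - 1) ^ 2 := by
  classical
  intro V _ T _ hT k hk
  have hne : {k | ∃ c : V → Fin k, IsNeighborLocating T k c}.Nonempty := by
    refine ⟨Fintype.card V, Fintype.equivFin V, (Fintype.equivFin V).surjective, ?_, ?_⟩
    · intro u v h h'
      exact h.ne ((Fintype.equivFin V).injective h')
    · intro u v huv h
      exact absurd ((Fintype.equivFin V).injective h) huv
  have hmem := Nat.sInf_mem hne
  have hk' : sInf {k | ∃ c : V → Fin k, IsNeighborLocating T k c} = k := hk
  rw [hk'] at hmem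
  obtain ⟨c, -, hp, hs⟩ := hmem
  apply SimpleGraph.maxDegree_le_of_forall_degree_le
  intro v
  exact deg_bound T c hT hp hs v

end Pool.Agent.Results.MP_16ddc9_co.TreeMaxDegree
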